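import Pool.Agent.H11.Loc1

open H11.Loc SimpleGraph

theorem Pool.Agent.Results.MP_fc8d4d_co.Unbounded.result :
    ∀ s : ℕ, ∃ (V : Type) (_ : Fintype V) (G : SimpleGraph V), G.Connected ∧
      max (chiL G) (chiL G) + s ≤ chiL (G □ G) := by
  intro s
  simpa using main s
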